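import Pool.Agent.W498.Dom.Core

/-!
# The limit of the primitive components
-/

open Finset Polynomial

set_option linter.unusedSectionVars false

namespace Pool.Agent.R910.Dom

open Pool.Agent.H914 Pool.Agent.H447 Pool.Agent.W498.Dom

section Fam

variable {K : Type*} [Field K] {E F : Type*} [AddCommGroup E] [Module K E] [AddCommGroup F]
  [Module K F]

/-- Solutions of polynomial linear systems, with a polynomial right hand side. -/
theorem solve [Module.Finite K E] {A : K → E →ₗ[K] F} (hA : PFam A)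
    (h0 : Function.Injective (A 0)) {w : K → F} (hw : PVec w) :
    ∃ (q : K[X]) (v : K → E), q.eval 0 ≠ 0 ∧ PVec v ∧
      ∀ s x, A s x = w s → q.eval s • x = v s := by
  obtain ⟨G, hG⟩ := LinearMap.exists_leftInverse_of_injective (A 0) (LinearMap.ker_eq_bot.2 h0)
  have hfam : PFam (fun s => (G ∘ₗ A s : Module.End K E)) := fun x => (hA x).map G
  obtain ⟨P, hP⟩ := hfam.exists_matrix
  set b := Module.finBasis K E with hb
  have hdet : ∀ s, P.det.eval s = LinearMap.det (G ∘ₗ A s : Module.End K E) := by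
    intro s
    have h1 : P.det.eval s = (P.map (eval s)).det := by
      have := RingHom.map_det (evalRingHom s) P
      simpa using this
    rw [h1, hP, LinearMap.det_toMatrix]
  have hGw : ∀ j, ∃ p : K[X], ∀ s, b.coord j (G (w s)) = p.eval s := fun j =>
    hw (b.coord j ∘ₗ G)
  choose pw hpw using hGw
  refine ⟨P.det, fun s => ∑ i, (∑ j, (P.adjugate i j).eval s * b.coord j (G (w s))) • b i,
    ?_, ?_, ?_⟩
  · rw [hdet 0, hG, LinearMap.det_id]
    exact one_ne_zero
  · apply PVec.sum
    intro i _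
    have h1 := (PVec.const (K := K) (b i)).smul (∑ j, P.adjugate i j * pw j)
    have h2 : (fun s => (∑ j, P.adjugate i j * pw j).eval s • b i) =
        fun s => (∑ j, (P.adjugate i j).eval s * b.coord j (G (w s))) • b i := by
      funext s
      rw [eval_finsetSum]
      simp only [eval_mul, hpw]
    rw [h2] at h1
    exact h1
  · intro s x hx
    -- in coordinates
    have h1 : (P.map (eval s)).mulVec (b.equivFun x) = b.equivFun (G (w s)) := by
      rw [hP]
      have := LinearMap.toMatrix_mulVec_repr b b (G ∘ₗ A s : Module.End K E) x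
      have h2 : (G ∘ₗ A s : Module.End K E) x = G (w s) := by rw [LinearMap.comp_apply, hx]
      rw [h2] at this
      exact this
    have h3 : (P.map (eval s)).adjugate = P.adjugate.map (eval s) := by
      have := RingHom.map_adjugate (evalRingHom s) P
      simpa using this.symm
    have h4 : (P.map (eval s)).adjugate.mulVec ((P.map (eval s)).mulVec (b.equivFun x)) =
        P.det.eval s • b.equivFun x := by
      rw [Matrix.mulVec_mulVec, Matrix.adjugate_mul, Matrix.smul_mulVec, Matrix.one_mulVec]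
      have h5 : P.det.eval s = (P.map (eval s)).det := by
        have := RingHom.map_det (evalRingHom s) P
        simpa using this
      rw [h5]
    rw [h1, h3] at h4
    apply b.equivFun.injective
    rw [map_smul, ← h4]
    funext i
    rw [map_sum, Finset.sum_apply, Finset.sum_eq_single i]
    · rw [map_smul, Pi.smul_apply, Module.Basis.equivFun_self, if_pos rfl, smul_eq_mul, mul_one]
      rfl
    · intro j _ hj
      rw [map_smul, Pi.smul_apply, Module.Basis.equivFun_self, if_neg hj, smul_zero]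
    · intro h; exact absurd (Finset.mem_univ _) h

end Fam

section Lim

variable {K : Type*} [Field K] [CharZero K] {V : Type*} [AddCommGroup V] [Module K V]
  {U : Type*} [AddCommGroup U] [Module K U] {gr P : ℕ → Submodule K V}
    {grU : ℕ → Submodule K U} {n r : ℕ} {h e : Module.End K V} {hU : Module.End K U}
    {φ : U →ₗ[K] V} {ψ : V →ₗ[K] U} {δ : K} (S : Setup gr P (n + r) h e)
    (M : MapSetup gr P grU n r h e hU φ ψ δ)

include S in
lemma top_pow {p : ℕ} {v : V} (hv : v ∈ P p) (k : ℕ) :
    (top S.iP (n + r) e ^ k) v = proj S.iP (p + 2 * k) ((e ^ k) v) := by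
  induction k with
  | zero => simp [proj_same S.iP hv]
  | succ k ih =>
    rw [pow_succ', Module.End.mul_apply, ih, S.top_apply (proj_mem S.iP _ _), pow_succ',
      Module.End.mul_apply]
    conv_rhs => rw [S.sumP ((e ^ k) v), map_sum, map_sum]
    by_cases hr : p + 2 * k < 2 * (n + r) + 1
    · rw [Finset.sum_eq_single (p + 2 * k)]
      · rfl
      · intro q _ hq
        by_cases hq' : p + 2 * k < q
        · rw [S.e_pow_level (fun q' hq' => proj_ne S.iP hv (by omega)) q hq', map_zero, map_zero]
        · exact S.eP q _ (proj_mem S.iP q _) _ (by omega)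
      · intro h'; exact absurd (Finset.mem_range.2 hr) h'
    · rw [Finset.sum_eq_zero]
      · have h1 := proj_mem S.iP (p + 2 * k + 2) (e (proj S.iP (p + 2 * k) ((e ^ k) v)))
        rw [S.bP _ (by omega)] at h1
        exact (Submodule.mem_bot _).1 h1
      · intro q hq
        have h1 := proj_mem S.iP (p + 2 * (k + 1)) (e (proj S.iP q ((e ^ k) v)))
        rw [S.bP _ (by omega)] at h1
        exact (Submodule.mem_bot _).1 h1

include M in
lemma h_pow_phi (k : ℕ) (u : U) : (h ^ k) (φ u) = φ ((hU ^ k) u) := by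
  induction k generalizing u with
  | zero => rfl
  | succ k ih =>
    rw [pow_succ, pow_succ, Module.End.mul_apply, Module.End.mul_apply, M.hφ, ih]

include S M in
/-- The binomial expansion of the powers of the limit operator. -/
lemma psi_limit (c : ℕ) (hc : r ≤ c) (u : U) :
    ψ (((h + top S.iP (n + r) e) ^ c) (φ u)) = ((c.choose r : K) * δ) • (hU ^ (c - r)) u := by
  have hcomm : Commute h (top S.iP (n + r) e) := S.h_top
  rw [hcomm.add_pow, LinearMap.sum_apply, map_sum]
  have key : ∀ k ∈ range (c + 1), k ≠ c - r →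
      ψ ((h ^ k * top S.iP (n + r) e ^ (c - k) * ((c.choose k : ℕ) : Module.End K V)) (φ u)) = 0 := by
    intro k hk hkr
    have hk' := Finset.mem_range.1 hk
    have e1 : h ^ k * top S.iP (n + r) e ^ (c - k) = top S.iP (n + r) e ^ (c - k) * h ^ k :=
      (hcomm.pow_pow _ _).eq
    rw [e1, Module.End.mul_apply, Module.End.mul_apply, ← nsmul_one, LinearMap.smul_apply,
      Module.End.one_apply, map_nsmul, map_nsmul, map_nsmul, h_pow_phi M,
      top_pow S (M.φP _), M.ψP _ _ _ (proj_mem S.iP _ _), smul_zero]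
    omega
  rw [Finset.sum_eq_single (c - r) key]
  · have e1 : h ^ (c - r) * top S.iP (n + r) e ^ (c - (c - r)) =
        top S.iP (n + r) e ^ (c - (c - r)) * h ^ (c - r) := (hcomm.pow_pow _ _).eq
    rw [e1, Module.End.mul_apply, Module.End.mul_apply, ← nsmul_one, LinearMap.smul_apply,
      Module.End.one_apply, map_nsmul, map_nsmul, map_nsmul, h_pow_phi M, top_pow S (M.φP _),
      show c - (c - r) = r by omega]
    have h2 : ψ (proj S.iP (n + 2 * r) ((e ^ r) (φ ((hU ^ (c - r)) u)))) =
        ψ ((e ^ r) (φ ((hU ^ (c - r)) u))) := by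
      conv_rhs => rw [S.sumP ((e ^ r) (φ ((hU ^ (c - r)) u))), map_sum]
      by_cases hn : n + 2 * r < 2 * (n + r) + 1
      · rw [Finset.sum_eq_single (n + 2 * r)]
        · intro q _ hq
          exact M.ψP q hq _ (proj_mem S.iP q _)
        · intro h'; exact absurd (Finset.mem_range.2 hn) h'
      · omega
    rw [h2, M.ψφ, Nat.choose_symm hc, ← Nat.cast_smul_eq_nsmul K, smul_smul]
  · intro h'; exact absurd (Finset.mem_range.2 (by omega)) h'

include S M in
/-- The limit operator on primitive vectors. -/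
lemma limit_zero (hlow : ∀ u, (top S.iP (n + r) e ^ (r + 1)) (φ u) = 0) {a c : ℕ} (hc : a + r ≤ c)
    {u : U} (hu : (hU ^ a) u = 0) : ((h + top S.iP (n + r) e) ^ c) (φ u) = 0 := by
  have hcomm : Commute h (top S.iP (n + r) e) := S.h_top
  rw [hcomm.add_pow, LinearMap.sum_apply]
  apply Finset.sum_eq_zero
  intro k hk
  have hk' := Finset.mem_range.1 hk
  have e1 : h ^ k * top S.iP (n + r) e ^ (c - k) = top S.iP (n + r) e ^ (c - k) * h ^ k :=
    (hcomm.pow_pow _ _).eq
  rw [e1, Module.End.mul_apply, Module.End.mul_apply, ← nsmul_one, LinearMap.smul_apply,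
    Module.End.one_apply, map_nsmul, map_nsmul, h_pow_phi M]
  by_cases hka : a ≤ k
  · rw [show k = (k - a) + a by omega, pow_add, Module.End.mul_apply, hu, map_zero, map_zero,
      map_zero, smul_zero]
  · rw [show c - k = (c - k - (r + 1)) + (r + 1) by omega, pow_add, Module.End.mul_apply, hlow,
      map_zero, smul_zero]

include S M in
lemma psi_scal (f : ℕ → K) (v : V) : ψ (scal S.iP f v) = f (n + 2 * r) • ψ v := by
  conv_rhs => rw [S.sumP v]
  rw [scal_eq_sum S.iP S.bP, LinearMap.sum_apply, map_sum, map_sum, Finset.smul_sum]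
  apply Finset.sum_congr rfl
  intro p _
  rw [LinearMap.smul_apply, map_smul]
  by_cases hp : p = n + 2 * r
  · rw [hp]
  · rw [M.ψP p hp _ (proj_mem S.iP p v), smul_zero, smul_zero]

include S in
lemma scal_pow_comm {s : K} (c : ℕ) : scal S.iP (fun p => s ^ p) * LL S.iP (n + r) h e s ^ c =
    (h + s ^ 2 • e) ^ c * scal S.iP (fun p => s ^ p) := by
  induction c with
  | zero => simp
  | succ c ih => rw [pow_succ, ← mul_assoc, ih, mul_assoc, S.scal_LL, ← mul_assoc, ← pow_succ]

include S M in
/-- **The limit of the primitive components.** -/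
theorem limit [Module.Finite K V] (hlow : ∀ u, (top S.iP (n + r) e ^ (r + 1)) (φ u) = 0)
    {j : ℕ} (hj : 2 * j ≤ n) {x : U} (hprim : (hU ^ (n - 2 * j + 1)) x = 0) :
    ∃ (q : K[X]) (N : K → U), q.eval 0 ≠ 0 ∧ PVec N ∧
      N 0 = (q.eval 0 * (((n + r - 2 * j).choose r : K) * δ)) • (hU ^ (n - 2 * j)) x ∧
      ∀ s : K, s ≠ 0 → ∀ w : V, (j ≠ 0 → w ∈ gr (2 * j - 2)) → (j = 0 → w = 0) →
        ((h + s ^ 2 • e) ^ (n + r - 2 * j + 2)) w = ((h + s ^ 2 • e) ^ (n + r - 2 * j + 1)) (φ x) →
        q.eval s • ψ (((h + s ^ 2 • e) ^ (n + r - 2 * j)) (φ x - (h + s ^ 2 • e) w)) =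
          s ^ (2 * r) • N s := by
  obtain ⟨c, hc⟩ : ∃ c, c = n + r - 2 * j := ⟨_, rfl⟩
  rw [← hc]
  obtain ⟨Λ, Λ', -, -, -, t⟩ := S.exists_sl2_both
  -- the subspace in which `w` lies
  obtain ⟨G, hG⟩ : ∃ G : Submodule K V, G = if j = 0 then ⊥ else gr (2 * j - 2) := ⟨_, rfl⟩
  have hGsc : ∀ f : ℕ → K, ∀ v ∈ G, scal S.iP f v ∈ G := by
    intro f v hv
    by_cases hj0 : j = 0
    · rw [hG, if_pos hj0] at hv ⊢
      rw [(Submodule.mem_bot _).1 hv, map_zero]
      exact Submodule.zero_mem _
    · rw [hG, if_neg hj0] at hv ⊢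
      exact S.scal_gr f hv
  set A : K → G →ₗ[K] V := fun s => (LL S.iP (n + r) h e s ^ (c + 2)) ∘ₗ G.subtype with hA
  have hAf : PFam A := fun x => (S.pvec_LL.pfam.pow (c + 2)) x
  have hb : PVec (fun s : K => (LL S.iP (n + r) h e s ^ (c + 1)) (φ x)) :=
    (S.pvec_LL.pfam.pow (c + 1)) (φ x)
  have hA0 : Function.Injective (A 0) := by
    rw [← LinearMap.ker_eq_bot, LinearMap.ker_eq_bot']
    rintro ⟨y, hy⟩ h0
    apply Subtype.ext
    rw [hA] at h0
    simp only [LinearMap.comp_apply, Submodule.subtype_apply] at h0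
    rw [S.LL_zero] at h0
    by_cases hj0 : j = 0
    · rw [hG, if_pos hj0] at hy
      exact (Submodule.mem_bot _).1 hy
    · rw [hG, if_neg hj0] at hy
      apply e_pow_inj t (c := c + 2) _ h0
      rw [wt_apply S.igr (n + r) hy]
      congr 1
      rw [hc]
      have h3 : ((2 * j - 2 : ℕ) : K) = 2 * (j : K) - 2 := by
        rw [Nat.cast_sub (by omega)]; push_cast; ring
      have h4 : ((n + r - 2 * j + 2 : ℕ) : K) = (n : K) + r - 2 * j + 2 := by
        push_cast [Nat.cast_sub (show 2 * j ≤ n + r by omega)]; ring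
      rw [h3, h4]
      push_cast; ring
  obtain ⟨q, v, hq, hv, hqv⟩ := solve hAf hA0 hb
  have hv0 : v 0 = 0 := by
    rw [← hqv 0 0, smul_zero]
    rw [map_zero, S.LL_zero, limit_zero S M hlow (a := n - 2 * j + 1) (by omega) hprim]
  set Z : K → V := fun s => q.eval s • φ x - LL S.iP (n + r) h e s (v s : V) with hZ
  have hvV : PVec (fun s => (v s : V)) := hv.map G.subtype
  have hZf : PVec Z := by
    have h1 := (PVec.const (K := K) (φ x)).smul q
    exact h1.sub (S.pvec_LL.pfam.apply hvV)
  set N : K → U := fun s => ψ ((LL S.iP (n + r) h e s ^ c) (Z s)) with hN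
  refine ⟨q, N, hq, ?_, ?_, ?_⟩
  · exact ((S.pvec_LL.pfam.pow c).apply hZf).map ψ
  · simp only [hN, hZ]
    rw [hv0, Submodule.coe_zero, map_zero, sub_zero, map_smul, map_smul, S.LL_zero,
      psi_limit S M c (by omega), smul_smul, show c - r = n - 2 * j by omega]
  · intro s hs w hw1 hw2 hw
    have hwG : w ∈ G := by
      by_cases hj0 : j = 0
      · rw [hw2 hj0]; exact Submodule.zero_mem _
      · rw [hG, if_neg hj0]; exact hw1 hj0
    set D := scal S.iP (fun p => s ^ p) with hD
    set D' := scal S.iP (fun p => (s ^ p)⁻¹) with hD'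
    have e1 : D * D' = 1 := S.scal_inv hs
    have e2 : D' * D = 1 := S.inv_scal hs
    have hDφ : D (φ x) = s ^ n • φ x := by rw [hD, scal_apply S.iP _ (M.φP x)]
    -- the rescaled solution
    obtain ⟨ω, hω⟩ : ∃ ω : V, ω = s ^ n • D' w := ⟨_, rfl⟩
    have hDω : D ω = s ^ n • w := by
      rw [hω, map_smul, ← Module.End.mul_apply, e1, Module.End.one_apply]
    have hωG : ω ∈ G := by rw [hω]; exact Submodule.smul_mem _ _ (hGsc _ _ hwG)
    have hDinj : Function.Injective D := by
      intro a b hab
      have := congrArg D' hab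
      rwa [← Module.End.mul_apply, ← Module.End.mul_apply, e2] at this
    have hpow : ∀ (k : ℕ) (y : V), D ((LL S.iP (n + r) h e s ^ k) y) =
        ((h + s ^ 2 • e) ^ k) (D y) := by
      intro k y
      have := congrArg (fun F => F y) (scal_pow_comm S (s := s) k)
      exact this
    have hωeq : (LL S.iP (n + r) h e s ^ (c + 2)) ω = (LL S.iP (n + r) h e s ^ (c + 1)) (φ x) := by
      apply hDinj
      rw [hpow, hpow, hDω, hDφ, map_smul, map_smul, hw]
    have h3 := hqv s ⟨ω, hωG⟩ hωeq
    have h4 : (v s : V) = q.eval s • ω := by rw [← h3]; rfl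
    have h5 : D (Z s) = (q.eval s * s ^ n) • (φ x - (h + s ^ 2 • e) w) := by
      simp only [hZ]
      rw [h4, map_sub, map_smul, hDφ, map_smul, map_smul]
      have := hpow 1 ω
      rw [pow_one, pow_one] at this
      rw [this, hDω, map_smul, smul_sub, smul_smul, smul_smul]
    have h6 : ψ (D ((LL S.iP (n + r) h e s ^ c) (Z s))) = s ^ (n + 2 * r) • N s := by
      rw [hD, psi_scal S M]
    rw [hpow, h5, map_smul, map_smul, mul_comm, mul_smul, pow_add, mul_smul] at h6
    have h7 : s ^ n ≠ 0 := pow_ne_zero _ hs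
    exact smul_right_injective U h7 h6

end Lim

end Pool.Agent.R910.Dom
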