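import Pool.Agent.W498.Dom.Defs
import Pool.Agent.H447R3.AoDefs

/-!
# The conjectures A and of Hodge type, codimension by codimension: definitions
-/

open CategoryTheory AlgebraicGeometry

universe u v

namespace Pool.Agent.R910.Dom

open Pool.Agent.H914 Pool.Agent.H447 VarClass Obj WeilCohomology

variable {k : Type u} [Field k] {𝒱 : VarClass k} {ops : CycleOps 𝒱}

/-- The standard conjecture of Hodge type for `X` and the divisor `D` in the single codimension
`j`: for every cycle `z` of codimension `j` whose class is primitive and not zero, the sign of the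
intersection number `z · z · D ^ (n - 2 j)`, `n = dim X`, is `(-1) ^ j`. -/
def HodgeTypeIn (W : WeilCohomology.{u, v} ops) (X : 𝒱.Obj) (D : X.Cycles) (j : ℕ) : Prop :=
  ∀ z, X.IsCyc j z → W.cl X (divPow ops D (X.dim - 2 * j + 1) z) = 0 → W.cl X z ≠ 0 →
    0 < (-1 : ℚ) ^ j * X.V.degCycle (ops.mul z (divPow ops D (X.dim - 2 * j) z))

/-- The conjecture `A` of Lefschetz type and the conjecture of Hodge type hold for `X` and the
divisor `D` in all codimensions `j ≤ i`. -/
def HoldsUpTo (W : WeilCohomology.{u, v} ops) (X : 𝒱.Obj) (D : X.Cycles) (i : ℕ) : Prop :=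
  ∀ j ≤ i, LefschetzAIn W X D j ∧ HodgeTypeIn W X D j

end Pool.Agent.R910.Dom
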