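import Pool.Agent.R910.Dom.Defs
import Pool.Agent.W498.Dom.Main
import Pool.Agent.H447R3.DegB

/-!
# Numerical equivalence in small codimensions
-/

open CategoryTheory AlgebraicGeometry Finset

set_option linter.unusedSectionVars false

universe u v

namespace Pool.Agent.R910.Dom

open Pool.Agent.H914 Pool.Agent.H447 Pool.Agent.W498.Dom VarClass Obj WeilCohomology

variable {k : Type u} [Field k] {𝒱 : VarClass k} {ops : CycleOps 𝒱}
  {W : WeilCohomology.{u, v} ops} {X Y : 𝒱.Obj} {D : X.Cycles}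

/-- The Lefschetz operator. -/
noncomputable abbrev lop (W : WeilCohomology.{u, v} ops) (X : 𝒱.Obj) (D : X.Cycles) :
    Module.End W.K (W.H X) := LinearMap.mulLeft W.K (W.cl X D)

lemma alg_zero (j : ℕ) : (0 : W.H X) ∈ algClasses W X j := ⟨0, SmVar.IsCyc.zero _ _, map_zero _⟩

lemma alg_add {j : ℕ} {a b : W.H X} (ha : a ∈ algClasses W X j) (hb : b ∈ algClasses W X j) :
    a + b ∈ algClasses W X j := by
  obtain ⟨z, hz, rfl⟩ := ha
  obtain ⟨z', hz', rfl⟩ := hb
  exact ⟨z + z', hz.add hz', map_add _ _ _⟩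

lemma alg_smul {j : ℕ} (q : ℚ) {a : W.H X} (ha : a ∈ algClasses W X j) :
    (q : W.K) • a ∈ algClasses W X j := by
  obtain ⟨z, hz, rfl⟩ := ha
  exact ⟨q • z, hz.smul q, W.cl_smul q z⟩

lemma alg_sub {j : ℕ} {a b : W.H X} (ha : a ∈ algClasses W X j) (hb : b ∈ algClasses W X j) :
    a - b ∈ algClasses W X j := by
  have h1 := alg_smul (-1) hb
  rw [Rat.cast_neg, Rat.cast_one, neg_one_smul] at h1
  rw [sub_eq_add_neg]
  exact alg_add ha h1

lemma alg_mul {i j : ℕ} {a b : W.H X} (ha : a ∈ algClasses W X i) (hb : b ∈ algClasses W X j) :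
    a * b ∈ algClasses W X (i + j) := by
  obtain ⟨z, hz, rfl⟩ := ha
  obtain ⟨z', hz', rfl⟩ := hb
  exact ⟨ops.mul z z', ops.mul_mem hz hz', W.cl_mul _ _⟩

lemma alg_pow (hD : X.IsCyc 1 D) {j : ℕ} {a : W.H X} (ha : a ∈ algClasses W X j) (l : ℕ) :
    (lop W X D ^ l) a ∈ algClasses W X (j + l) := by
  induction l with
  | zero => exact ha
  | succ l ih =>
    rw [pow_succ', Module.End.mul_apply, ← add_assoc, add_comm (j + l)]
    exact alg_mul ⟨D, hD, rfl⟩ ih

lemma alg_pow' (hD : X.IsCyc 1 D) {j : ℕ} {a : W.H X} (ha : a ∈ algClasses W X j) {l i : ℕ}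
    (hi : j + l = i) : (lop W X D ^ l) a ∈ algClasses W X i := hi ▸ alg_pow hD ha l

lemma alg_rat {a : W.H X} {i j : ℕ} (hij : i + j = X.dim) {b : W.H X} (ha : a ∈ algClasses W X i)
    (hb : b ∈ algClasses W X j) : ∃ q : ℚ, W.tr X (a * b) = (q : W.K) := by
  obtain ⟨z, hz, rfl⟩ := ha
  obtain ⟨z', hz', rfl⟩ := hb
  exact ⟨_, tr_mul_cl hz hz' hij⟩

lemma alg_map {j : ℕ} (f : Y ⟶ X) {a : W.H X} (ha : a ∈ algClasses W X j) :
    W.map f a ∈ algClasses W Y j := by
  obtain ⟨z, hz, rfl⟩ := ha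
  exact ⟨ops.pull f z, ops.pull_mem f hz, W.cl_pull f z⟩

lemma alg_push {i j : ℕ} (f : Y ⟶ X) {a : W.H Y} (ha : a ∈ algClasses W Y i)
    (hij : i + X.dim = j + Y.dim) : W.push f a ∈ algClasses W X j := by
  obtain ⟨z, hz, rfl⟩ := ha
  exact ⟨ops.push f z, ops.push_mem f hz hij, W.cl_push f z⟩

lemma tr_lop (hD : X.IsCyc 1 D) (a b : W.H X) :
    W.tr X (lop W X D a * b) = W.tr X (a * lop W X D b) := by
  rw [LinearMap.mulLeft_apply, LinearMap.mulLeft_apply, W.even_comm (p := 1) (W.cl_mem hD) a,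
    mul_assoc]

lemma tr_lop_pow (hD : X.IsCyc 1 D) (l : ℕ) (a b : W.H X) :
    W.tr X ((lop W X D ^ l) a * b) = W.tr X (a * (lop W X D ^ l) b) := by
  induction l generalizing a b with
  | zero => rfl
  | succ l ih =>
    rw [pow_succ', Module.End.mul_apply, tr_lop hD, ih, ← Module.End.mul_apply, ← pow_succ,
      pow_succ']

lemma A_iff {j : ℕ} : LefschetzAIn W X D j ↔
    ∀ c ∈ algClasses W X (X.dim - j), ∃ c' ∈ algClasses W X j,
      (lop W X D ^ (X.dim - 2 * j)) c' = c := by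
  constructor
  · rintro h _ ⟨z, hz, rfl⟩
    obtain ⟨z', hz', h1⟩ := h z hz
    exact ⟨W.cl X z', ⟨z', hz', rfl⟩, by rw [← h1, cl_divPow]⟩
  · intro h z hz
    obtain ⟨_, ⟨z', hz', rfl⟩, h1⟩ := h _ ⟨z, hz, rfl⟩
    exact ⟨z', hz', by rw [cl_divPow, h1]⟩

/-- A class of codimension `j` which is orthogonal to itself. -/
lemma hodge_zero {j : ℕ} (hD : X.IsCyc 1 D) (hj : 2 * j ≤ X.dim) (h : HodgeTypeIn W X D j)
    {c : W.H X} (hc : c ∈ algClasses W X j) (hp : (lop W X D ^ (X.dim - 2 * j + 1)) c = 0)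
    (h0 : W.tr X (c * (lop W X D ^ (X.dim - 2 * j)) c) = 0) : c = 0 := by
  obtain ⟨z, hz, rfl⟩ := hc
  by_contra hne
  have h1 := h z hz (by rw [cl_divPow]; exact hp) hne
  have h2 : W.tr X (W.cl X z * W.cl X (divPow ops D (X.dim - 2 * j) z)) =
      (X.V.degCycle (ops.mul z (divPow ops D (X.dim - 2 * j) z)) : W.K) :=
    tr_mul_cl hz (divPow_mem hD _ hz) (by omega)
  rw [cl_divPow, h0] at h2
  have h3 : X.V.degCycle (ops.mul z (divPow ops D (X.dim - 2 * j) z)) = 0 := by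
    exact_mod_cast h2.symm
  rw [h3, mul_zero] at h1
  exact lt_irrefl _ h1

/-- The sign. -/
lemma hodge_nonneg {j : ℕ} (hD : X.IsCyc 1 D) (hj : 2 * j ≤ X.dim) (h : HodgeTypeIn W X D j)
    {c : W.H X} (hc : c ∈ algClasses W X j) (hp : (lop W X D ^ (X.dim - 2 * j + 1)) c = 0) :
    ∃ q : ℚ, W.tr X (c * (lop W X D ^ (X.dim - 2 * j)) c) = (q : W.K) ∧ 0 ≤ (-1 : ℚ) ^ j * q := by
  obtain ⟨z, hz, rfl⟩ := hc
  have h2 : W.tr X (W.cl X z * W.cl X (divPow ops D (X.dim - 2 * j) z)) =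
      (X.V.degCycle (ops.mul z (divPow ops D (X.dim - 2 * j) z)) : W.K) :=
    tr_mul_cl hz (divPow_mem hD _ hz) (by omega)
  rw [cl_divPow] at h2
  refine ⟨_, h2, ?_⟩
  by_cases h0 : W.cl X z = 0
  · rw [h0, zero_mul, map_zero] at h2
    have h3 : X.V.degCycle (ops.mul z (divPow ops D (X.dim - 2 * j) z)) = 0 := by
      exact_mod_cast h2.symm
    rw [h3, mul_zero]
  · exact (h z hz (by rw [cl_divPow]; exact hp) h0).le

/-- The primitive component of a class. -/
lemma exists_prim {j : ℕ} (hD : X.IsCyc 1 D) (hj : 2 * j ≤ X.dim)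
    (hA : ∀ l < j, LefschetzAIn W X D l) {c : W.H X} (hc : c ∈ algClasses W X j) :
    ∃ w : W.H X, (∀ l, l + 1 = j → w ∈ algClasses W X l) ∧ (j = 0 → w = 0) ∧
      (lop W X D ^ (X.dim - 2 * j + 2)) w = (lop W X D ^ (X.dim - 2 * j + 1)) c := by
  rcases Nat.eq_zero_or_pos j with rfl | h0
  · refine ⟨0, fun l hl => absurd hl (by omega), fun _ => rfl, ?_⟩
    rw [map_zero]
    obtain ⟨z, hz, hzc⟩ := alg_pow hD hc (X.dim - 2 * 0 + 1)
    have h1 := W.cl_mem hz
    rw [W.gr_eq_bot X _ (by omega)] at h1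
    rw [← hzc, (Submodule.mem_bot _).1 h1]
  · obtain ⟨l, rfl⟩ : ∃ l, j = l + 1 := ⟨j - 1, by omega⟩
    obtain ⟨w, hw, h1⟩ := A_iff.1 (hA l (by omega)) ((lop W X D ^ (X.dim - 2 * (l + 1) + 1)) c)
      (alg_pow' hD hc (by omega))
    refine ⟨w, fun l' hl' => ?_, fun h' => absurd h' (by omega), ?_⟩
    · obtain rfl : l' = l := by omega
      exact hw
    · rw [← h1, show X.dim - 2 * (l + 1) + 2 = X.dim - 2 * l by omega]

/-- The sum of the classes. -/
lemma exists_prim' {j : ℕ} (hD : X.IsCyc 1 D) (hj : 2 * j ≤ X.dim)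
    (hA : ∀ l < j, LefschetzAIn W X D l) {c : W.H X} (hc : c ∈ algClasses W X j) :
    ∃ w : W.H X, (∀ l, l + 1 = j → w ∈ algClasses W X l) ∧ (j = 0 → w = 0) ∧
      (lop W X D ^ (X.dim - 2 * j + 2)) w = (lop W X D ^ (X.dim - 2 * j + 1)) c ∧
      c - lop W X D w ∈ algClasses W X j ∧
      (lop W X D ^ (X.dim - 2 * j + 1)) (c - lop W X D w) = 0 := by
  obtain ⟨w, h1, h2, h3⟩ := exists_prim hD hj hA hc
  refine ⟨w, h1, h2, h3, ?_, ?_⟩
  · apply alg_sub hc
    rcases Nat.eq_zero_or_pos j with rfl | h0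
    · rw [h2 rfl, map_zero]; exact alg_zero 0
    · have := alg_pow hD (h1 (j - 1) (by omega)) 1
      rwa [pow_one, show j - 1 + 1 = j by omega] at this
  · rw [map_sub, ← h3, ← Module.End.mul_apply, ← pow_succ, sub_self]

/-- **Homological and numerical equivalence in small and in large codimensions.** -/
theorem num {i : ℕ} (hD : X.IsCyc 1 D) (hi : 2 * i ≤ X.dim) (h : HoldsUpTo W X D i) :
    ∀ j ≤ i, (∀ c ∈ algClasses W X j,
      (∀ c' ∈ algClasses W X (X.dim - j), W.tr X (c * c') = 0) → c = 0) ∧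
      (∀ c' ∈ algClasses W X (X.dim - j),
      (∀ c ∈ algClasses W X j, W.tr X (c * c') = 0) → c' = 0) := by
  intro j
  induction j with
  | zero =>
    intro _
    have key : ∀ c ∈ algClasses W X 0,
        (∀ c' ∈ algClasses W X (X.dim - 0), W.tr X (c * c') = 0) → c = 0 := by
      intro c hc h0
      obtain ⟨w, -, h2, -, -, h4⟩ := exists_prim' (W := W) hD (j := 0) (by omega)
        (fun l hl => absurd hl (by omega)) hc
      rw [h2 rfl, map_zero, sub_zero] at h4
      exact hodge_zero hD (by omega) (h 0 (by omega)).2 hc h4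
        (h0 _ (alg_pow' hD hc (by omega)))
    refine ⟨key, ?_⟩
    intro c' hc' h0
    obtain ⟨z, hz, h1⟩ := A_iff.1 (h 0 (by omega)).1 c' hc'
    rw [← h1, key z hz, map_zero]
    intro c'' hc''
    obtain ⟨y, hy, h2⟩ := A_iff.1 (h 0 (by omega)).1 c'' hc''
    rw [← h2, ← tr_lop_pow hD, h1]
    obtain ⟨u, hu, rfl⟩ := hy
    rw [← W.even_comm (W.cl_mem hu)]
    exact h0 _ ⟨u, hu, rfl⟩
  | succ j ih =>
    intro hj
    obtain ⟨ih1, -⟩ := ih (by omega)
    have key : ∀ c ∈ algClasses W X (j + 1),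
        (∀ c' ∈ algClasses W X (X.dim - (j + 1)), W.tr X (c * c') = 0) → c = 0 := by
      intro c hc h0
      obtain ⟨w, h1, -, h3, h4, h5⟩ := exists_prim' (W := W) hD (j := j + 1) (by omega)
        (fun l hl => (h l (by omega)).1) hc
      have h6 : c - lop W X D w = 0 := by
        apply hodge_zero hD (by omega) (h _ hj).2 h4 h5
        rw [sub_mul, map_sub, h0 _ (alg_pow' hD h4 (by omega)), tr_lop hD,
          ← Module.End.mul_apply, ← pow_succ', h5, mul_zero, map_zero, sub_zero]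
      have hw := h1 j rfl
      have h7 : w = 0 := by
        apply ih1 w hw
        intro u hu
        obtain ⟨u', hu', h8⟩ := A_iff.1 (h j (by omega)).1 u hu
        have h9 : lop W X D w = c := (sub_eq_zero.1 h6).symm
        rw [← h8, show X.dim - 2 * j = (X.dim - 2 * j - 1) + 1 by omega, pow_succ',
          Module.End.mul_apply, ← tr_lop hD, h9]
        exact h0 _ (alg_pow' hD hu' (by omega))
      rw [h7, map_zero, sub_zero] at h6
      exact h6
    refine ⟨key, ?_⟩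
    intro c' hc' h0
    obtain ⟨z, hz, h1⟩ := A_iff.1 (h _ hj).1 c' hc'
    rw [← h1, key z hz, map_zero]
    intro c'' hc''
    obtain ⟨y, hy, h2⟩ := A_iff.1 (h _ hj).1 c'' hc''
    rw [← h2, ← tr_lop_pow hD, h1]
    obtain ⟨u, hu, rfl⟩ := hy
    rw [← W.even_comm (W.cl_mem hu)]
    exact h0 _ ⟨u, hu, rfl⟩

/-- **The conjecture A from numerical equivalence.** -/
theorem A_of_num {j : ℕ} (hD : X.IsCyc 1 D) (hHL : HardLefschetz W X D) (hj : 2 * j ≤ X.dim)
    (hnum : ∀ c' ∈ algClasses W X (X.dim - j),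
      (∀ c ∈ algClasses W X j, W.tr X (c * c') = 0) → c' = 0) : LefschetzAIn W X D j := by
  classical
  have hN : HomEqNumIn W X (X.dim - j) := by
    intro z hz h0
    apply hnum _ ⟨z, hz, rfl⟩
    rintro _ ⟨w, hw, rfl⟩
    rw [W.even_comm (W.cl_mem hw), tr_mul_cl hz hw (by omega), h0 w, Rat.cast_zero]
    rwa [show X.dim - (X.dim - j) = j by omega]
  set A := spanCycles W X j with hA
  set B := spanCycles W X ((X.dim - j : ℕ) : ℤ) with hB
  -- the pairing
  set pair : B →ₗ[W.K] (A →ₗ[W.K] W.K) :=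
    ((LinearMap.mul W.K (W.H X)).flip.compr₂ (W.tr X)).domRestrict₁₂ B A with hpair
  have hpair' : ∀ b a, pair b a = W.tr X ((a : W.H X) * b) := fun b a => rfl
  have hinj : Function.Injective pair := by
    rw [← LinearMap.ker_eq_bot, LinearMap.ker_eq_bot']
    rintro ⟨b, hb⟩ h0
    apply Subtype.ext
    refine hN.span (q := X.dim - j) (p := j) (by omega) hb ?_
    intro w hw
    have := congrArg (fun F => F ⟨W.cl X w, Submodule.subset_span ⟨j, rfl, w, hw, rfl⟩⟩) h0
    exact this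
  have hle : Module.finrank W.K B ≤ Module.finrank W.K A := by
    have := LinearMap.finrank_le_finrank_of_injective hinj
    rwa [Subspace.dual_finrank_eq] at this
  have hmem : ∀ a ∈ A, (lop W X D ^ (X.dim - 2 * j)) a ∈ B := by
    intro a ha
    rw [hA, spanCycles] at ha
    refine Submodule.span_induction (p := fun a _ => (lop W X D ^ (X.dim - 2 * j)) a ∈ B)
      ?_ ?_ ?_ ?_ ha
    · rintro _ ⟨p, hp, z, hz, rfl⟩
      obtain rfl : p = j := by exact_mod_cast hp
      obtain ⟨z', hz', h1⟩ := alg_pow' (W := W) (i := X.dim - p) hD ⟨z, hz, rfl⟩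
        (l := X.dim - 2 * p) (by omega)
      exact Submodule.subset_span ⟨X.dim - p, rfl, z', hz', h1⟩
    · rw [map_zero]; exact Submodule.zero_mem _
    · intro a b _ _ ha hb
      rw [map_add]; exact Submodule.add_mem _ ha hb
    · intro c a _ ha
      rw [map_smul]; exact Submodule.smul_mem _ _ ha
  have hAgr : ∀ a ∈ A, a ∈ W.gr X (2 * j) := by
    intro a ha
    rw [hA, spanCycles] at ha
    refine Submodule.span_induction (p := fun a _ => a ∈ W.gr X (2 * j)) ?_ ?_ ?_ ?_ ha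
    · rintro _ ⟨p, hp, z, hz, rfl⟩
      obtain rfl : p = j := by exact_mod_cast hp
      exact W.cl_mem hz
    · exact Submodule.zero_mem _
    · intro a b _ _ ha hb
      exact Submodule.add_mem _ ha hb
    · intro c a _ ha
      exact Submodule.smul_mem _ _ ha
  set g : A →ₗ[W.K] B := (lop W X D ^ (X.dim - 2 * j)).restrict hmem with hg
  have hginj : Function.Injective g := by
    rw [← LinearMap.ker_eq_bot, LinearMap.ker_eq_bot']
    rintro ⟨a, ha⟩ h0
    apply Subtype.ext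
    exact (hHL (2 * j) hj).1 a (hAgr a ha) (congrArg Subtype.val h0)
  have hgsurj : Function.Surjective g :=
    (LinearMap.injective_iff_surjective_of_finrank_eq_finrank
      (le_antisymm (LinearMap.finrank_le_finrank_of_injective hginj) hle)).1 hginj
  -- descent to rational coefficients
  intro z hz
  obtain ⟨⟨γ, hγ⟩, hγz⟩ := hgsurj ⟨W.cl X z, Submodule.subset_span ⟨X.dim - j, rfl, z, hz, rfl⟩⟩
  have hγz' : (lop W X D ^ (X.dim - 2 * j)) γ = W.cl X z := congrArg Subtype.val hγz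
  have hrep : ∃ (m : ℕ) (c : Fin m → W.K) (z : Fin m → X.Cycles), (∀ i, X.IsCyc j (z i)) ∧
      γ = ∑ i, c i • W.cl X (z i) := by
    rw [hA, spanCycles, Submodule.mem_span_set'] at hγ
    obtain ⟨m, c, g, hg⟩ := hγ
    choose p' hp' z hz hz' using fun i => (g i).2
    refine ⟨m, c, z, fun i => ?_, ?_⟩
    · have : p' i = j := by exact_mod_cast hp' i
      rw [← this]; exact hz i
    · rw [← hg]
      exact Finset.sum_congr rfl (fun i _ => by rw [hz' i])
  obtain ⟨m, c, y, hy, hγy⟩ := hrep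
  obtain ⟨ret, hret⟩ := exists_retract W.K
  set u : X.Cycles := ∑ i, ret (c i) • y i with hu
  have hucyc : X.IsCyc j u := by
    rw [hu]
    refine Finset.sum_induction _ (fun u => X.IsCyc j u) (fun a b => SmVar.IsCyc.add)
      (SmVar.IsCyc.zero _ _) (fun i _ => (hy i).smul _)
  have hucl : W.cl X u = ∑ i, ((ret (c i) : ℚ) : W.K) • W.cl X (y i) := by
    rw [hu, map_sum]
    exact Finset.sum_congr rfl (fun i _ => cl_smul W _ _)
  refine ⟨u, hucyc, ?_⟩
  rw [cl_divPow, ← sub_eq_zero]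
  apply hnum _ (alg_sub (alg_pow' hD ⟨u, hucyc, rfl⟩ (by omega)) ⟨z, hz, rfl⟩)
  intro a ha
  obtain ⟨r0, hr0⟩ := alg_rat (W := W) (show j + (X.dim - j) = X.dim by omega) ha ⟨z, hz, rfl⟩
  have hri : ∀ i, ∃ q : ℚ, W.tr X (a * (lop W X D ^ (X.dim - 2 * j)) (W.cl X (y i))) = q :=
    fun i => alg_rat (W := W) (show j + (X.dim - j) = X.dim by omega) ha
      (alg_pow' hD ⟨y i, hy i, rfl⟩ (by omega))
  choose b hb using hri
  have e1 : (r0 : W.K) = ∑ i, c i * (b i : W.K) := by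
    rw [← hr0, ← hγz', hγy, map_sum, Finset.mul_sum, map_sum]
    apply Finset.sum_congr rfl
    intro i _
    rw [map_smul, mul_smul_comm, map_smul, hb, smul_eq_mul]
  have e2 : r0 = ∑ i, ret (c i) * b i := by
    have := congrArg ret e1
    rw [ret_ratCast hret, map_sum] at this
    rw [this]
    exact Finset.sum_congr rfl (fun i _ => ret_mul _ _)
  rw [mul_sub, map_sub, hr0, hucl, map_sum, Finset.mul_sum, map_sum, sub_eq_zero, e2]
  push_cast
  apply Finset.sum_congr rfl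
  intro i _
  rw [map_smul, mul_smul_comm, map_smul, hb, smul_eq_mul]

end Pool.Agent.R910.Dom
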