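import Pool.Agent.R910.Dom.Alg
import Pool.Agent.R910.Dom.Num

/-!
# Descent of the conjecture of Hodge type along dominant morphisms
-/

open CategoryTheory AlgebraicGeometry Finset Polynomial

set_option linter.unusedSectionVars false

universe u v

namespace Pool.Agent.R910.Dom

open Pool.Agent.H914 Pool.Agent.H447 Pool.Agent.W498.Dom

section Sign

variable {K : Type*} [Field K] [CharZero K]

/-- Rational polynomials from polynomials with coefficients in `K`. -/
lemma exists_ratPoly (lam : K →ₗ[ℚ] ℚ) (p : K[X]) :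
    ∃ P : ℚ[X], ∀ s : ℚ, P.eval s = lam (p.eval (s : K)) := by
  refine ⟨∑ i ∈ range (p.natDegree + 1), C (lam (p.coeff i)) * X ^ i, fun s => ?_⟩
  rw [eval_finsetSum, eval_eq_sum_range, map_sum]
  apply Finset.sum_congr rfl
  intro i _
  rw [eval_mul, eval_C, eval_pow, eval_X, ← Rat.cast_pow, ret_mul]

/-- The sign at zero of a rational function with rational values. -/
lemma sign_limit {q p : K[X]} (hq : q.eval 0 ≠ 0) {ρ0 : ℚ}
    (hp0 : p.eval 0 = q.eval 0 * (ρ0 : K))
    (h : ∀ ε : ℚ, 0 < ε → ∃ s : ℚ, 0 < s ∧ s < ε ∧ ∃ ρ : ℚ, 0 ≤ ρ ∧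
      q.eval (s : K) * (ρ : K) = p.eval (s : K)) : 0 ≤ ρ0 := by
  obtain ⟨ret, hret⟩ := exists_retract K
  set lam : K →ₗ[ℚ] ℚ := ret ∘ₗ (LinearMap.mulRight ℚ (q.eval 0)⁻¹) with hlam
  have hlam1 : lam (q.eval 0) = 1 := by
    rw [hlam, LinearMap.comp_apply, LinearMap.mulRight_apply, mul_inv_cancel₀ hq, hret]
  obtain ⟨P, hP⟩ := exists_ratPoly lam p
  obtain ⟨R, hR⟩ := exists_ratPoly lam q
  have hP0 : P.eval 0 = ρ0 := by
    rw [hP, Rat.cast_zero, hp0, ret_mul, hlam1, one_mul]
  have hR0 : R.eval 0 = 1 := by rw [hR, Rat.cast_zero, hlam1]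
  by_contra hneg
  push Not at hneg
  have h1 : ∀ᶠ s in nhds (0 : ℚ), P.eval s < 0 := by
    apply (P.continuous.tendsto 0).eventually_lt_const
    rw [hP0]; exact hneg
  have h2 : ∀ᶠ s in nhds (0 : ℚ), 0 < R.eval s := by
    apply (R.continuous.tendsto 0).eventually_const_lt
    rw [hR0]; exact one_pos
  obtain ⟨ε, hε, h3⟩ := Metric.eventually_nhds_iff.1 (h1.and h2)
  obtain ⟨ε', hε', h4⟩ := exists_rat_btwn hε
  have hε'' : (0 : ℚ) < ε' := by exact_mod_cast hε'
  obtain ⟨s, hs, hs', ρ, hρ, h5⟩ := h ε' hε''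
  have h6 : dist s 0 < ε := by
    rw [Rat.dist_eq, Rat.cast_zero, sub_zero, abs_of_pos (by exact_mod_cast hs)]
    exact lt_trans (by exact_mod_cast hs') h4
  obtain ⟨h7, h8⟩ := h3 h6
  have h9 : R.eval s * ρ = P.eval s := by
    rw [hR, hP, ← h5, ret_mul]
  have h10 : 0 ≤ R.eval s * ρ := mul_nonneg h8.le hρ
  rw [h9] at h10
  exact absurd h7 (not_lt.2 h10)

end Sign

open VarClass Obj WeilCohomology

variable {k : Type u} [Field k] {𝒱 : VarClass k} {ops : CycleOps 𝒱}
  {W : WeilCohomology.{u, v} ops} {Y X : 𝒱.Obj} {f : Y ⟶ X} {D : X.Cycles} {E : Y.Cycles}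

section Low

variable (Q : PerverseDecomposition W f D E) (hD : X.IsCyc 1 D) (hE : Y.IsCyc 1 E)
  (hHL : HardLefschetz W X D) (hf : IsDominant ops f) (h1 : (1 : W.H X) ≠ 0)

include hHL hf h1

lemma top_one {r : ℕ} (hr : Y.dim = X.dim + r) :
    (top (setup Q hD hE hr).iP (X.dim + r) (eop W Y E) ^ (r + 1)) (1 : W.H Y) = 0 := by
  have S := setup Q hD hE hr
  have h1p := one_piece Q hD hE hHL hf h1
  have hb : (top (setup Q hD hE hr).iP (X.dim + r) (eop W Y E) ^ (r + 1)) (1 : W.H Y) ∈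
      Q.piece (X.dim + 2 * (r + 1)) := by
    rw [top_pow S h1p]
    exact proj_mem _ _ _
  by_cases hX : X.dim < 2
  · rw [S.bP _ (by omega)] at hb
    exact (Submodule.mem_bot _).1 hb
  · obtain ⟨a, -, ha⟩ := (S.rl (X.dim - 2) (by omega)).2 _ (by
      rw [show 2 * (X.dim + r) - (X.dim - 2) = X.dim + 2 * (r + 1) by omega]; exact hb)
    have hgr := pow_L_mem S.isHom_top (W.one_mem Y) (r + 1)
    have e1 : proj S.igr (0 + 2 * (r + 1))
        ((top (setup Q hD hE hr).iP (X.dim + r) (eop W Y E) ^ (r + 1)) (1 : W.H Y)) = 0 := by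
      rw [← ha, show X.dim + r - (X.dim - 2) = r + 2 by omega]
      refine gr_induction S.igr (p := fun a => proj S.igr (0 + 2 * (r + 1))
        ((top (setup Q hD hE hr).iP (X.dim + r) (eop W Y E) ^ (r + 2)) a) = 0) ?_ ?_ a
      · intro i a ha
        exact proj_ne S.igr (pow_L_mem S.isHom_top ha (r + 2)) (by omega)
      · intro a b ha hb
        rw [map_add, map_add, ha, hb, add_zero]
    rwa [proj_same S.igr hgr] at e1

lemma low {r : ℕ} (hr : Y.dim = X.dim + r) (u : W.H X) :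
    (top (setup Q hD hE hr).iP (X.dim + r) (eop W Y E) ^ (r + 1))
      ((W.map f).toLinearMap u) = 0 := by
  have S := setup Q hD hE hr
  set T := top (setup Q hD hE hr).iP (X.dim + r) (eop W Y E) with hT
  set m : Module.End W.K (W.H Y) := LinearMap.mulLeft W.K (W.map f u) with hm
  have hmP : IsHom Q.piece 0 m := by
    intro i a ha
    rw [add_zero]
    by_cases hi : 0 ≤ i
    · lift i to ℕ using hi
      rw [grZ_natCast] at ha ⊢
      exact Q.smul_mem _ u a ha
    · rw [grZ_of_neg (by omega)] at ha ⊢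
      rw [(Submodule.mem_bot _).1 ha, map_zero]
      exact Submodule.zero_mem _
  have hme : m * eop W Y E = eop W Y E * m := by
    apply LinearMap.ext
    intro x
    rw [Module.End.mul_apply, Module.End.mul_apply, LinearMap.mulLeft_apply,
      LinearMap.mulLeft_apply, LinearMap.mulLeft_apply, LinearMap.mulLeft_apply, ← mul_assoc,
      ← mul_assoc, W.even_comm (p := 1) (W.cl_mem hE)]
  have hproj : ∀ p, proj (setup Q hD hE hr).iP p * m = m * proj (setup Q hD hE hr).iP p :=
    fun p => hmP.proj_comm _ p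
  have hc : Commute m T := by
    change m * T = T * m
    rw [hT, top, Finset.mul_sum, Finset.sum_mul]
    apply Finset.sum_congr rfl
    intro p _
    calc m * (proj (setup Q hD hE hr).iP (p + 2) * eop W Y E * proj (setup Q hD hE hr).iP p)
        = (m * proj (setup Q hD hE hr).iP (p + 2)) * eop W Y E *
            proj (setup Q hD hE hr).iP p := by noncomm_ring
      _ = proj (setup Q hD hE hr).iP (p + 2) * (m * eop W Y E) *
            proj (setup Q hD hE hr).iP p := by rw [← hproj]; noncomm_ring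
      _ = proj (setup Q hD hE hr).iP (p + 2) * eop W Y E *
            (m * proj (setup Q hD hE hr).iP p) := by rw [hme]; noncomm_ring
      _ = _ := by rw [← hproj]; noncomm_ring
  have e1 : (W.map f).toLinearMap u = m 1 := by
    rw [hm, LinearMap.mulLeft_apply, mul_one]; rfl
  have e2 : (T ^ (r + 1)) (m 1) = m ((T ^ (r + 1)) 1) := by
    have := (hc.pow_right (r + 1)).eq
    rw [← Module.End.mul_apply, ← this, Module.End.mul_apply]
  rw [e1, e2, top_one Q hD hE hHL hf h1 hr, map_zero]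

end Low

/-- The operator of a divisor in the pencil. -/
lemma lop_pencil (t : ℚ) : lop W Y (ops.pull f D + t ^ 2 • E) =
    hop W f D + (t : W.K) ^ 2 • eop W Y E := by
  apply LinearMap.ext
  intro x
  rw [LinearMap.mulLeft_apply, LinearMap.add_apply, LinearMap.smul_apply,
    LinearMap.mulLeft_apply, LinearMap.mulLeft_apply, map_add, W.cl_pull, W.cl_smul, add_mul,
    smul_mul_assoc, Rat.cast_pow]

lemma pencil_mem (hD : X.IsCyc 1 D) (hE : Y.IsCyc 1 E) (t : ℚ) :
    Y.IsCyc 1 (ops.pull f D + t ^ 2 • E) := (ops.pull_mem f hD).add (hE.smul _)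

section Main

variable (Q : PerverseDecomposition W f D E) (hD : X.IsCyc 1 D) (hE : Y.IsCyc 1 E)
  (hHL : HardLefschetz W X D) (hf : IsDominant ops f) (h1 : (1 : W.H X) ≠ 0)

include Q hD hE hHL hf h1

/-- **The sign of the form on primitive classes, up to the sign of `δ`.** -/
theorem nonneg {r : ℕ} (hr : Y.dim = X.dim + r) {δ : W.K}
    (M : MapSetup (W.gr Y) Q.piece (W.gr X) X.dim r (hop W f D) (eop W Y E)
      (LinearMap.mulLeft W.K (W.cl X D)) (W.map f).toLinearMap (W.push f) δ) {d : ℚ}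
    (hd : δ = (d : W.K)) {j : ℕ} (hj : 2 * j ≤ X.dim)
    (h : ∀ ε : ℚ, 0 < ε → ∃ t : ℚ, 0 < t ∧ t < ε ∧
      (∀ l < j, LefschetzAIn W Y (ops.pull f D + t ^ 2 • E) l) ∧
      HodgeTypeIn W Y (ops.pull f D + t ^ 2 • E) j) {x : W.H X} (hx : x ∈ algClasses W X j)
    (hp : (lop W X D ^ (X.dim - 2 * j + 1)) x = 0) {b : ℚ}
    (hb : W.tr X (x * (lop W X D ^ (X.dim - 2 * j)) x) = (b : W.K)) :
    0 ≤ (-1 : ℚ) ^ j * (d * b) := by
  have S := setup Q hD hE hr
  obtain ⟨q, N, hq, hN, hN0, hlim⟩ := limit S M (low Q hD hE hHL hf h1 hr) hj hp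
  obtain ⟨p, hpN⟩ := hN (W.tr X ∘ₗ LinearMap.mulLeft W.K x)
  have hchoose : (0 : ℚ) < ((X.dim + r - 2 * j).choose r : ℚ) := by
    exact_mod_cast Nat.choose_pos (by omega)
  have key : 0 ≤ (-1 : ℚ) ^ j * (((X.dim + r - 2 * j).choose r : ℚ) * d * b) := by
    refine sign_limit (q := q) (p := C ((-1 : W.K) ^ j) * p) hq ?_ ?_
    · rw [eval_mul, eval_C, ← hpN, hN0, LinearMap.comp_apply, map_smul, map_smul,
        LinearMap.mulLeft_apply, hb, hd, smul_eq_mul]
      push_cast
      ring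
    · intro ε hε
      obtain ⟨t, ht, htε, hA, hH⟩ := h ε hε
      have hDt := pencil_mem (ops := ops) (f := f) hD hE t
      have hfx : W.map f x ∈ algClasses W Y j := alg_map f hx
      obtain ⟨w, hw1, hw2, hw3, hw4, hw5⟩ := exists_prim' (W := W) hDt (j := j) (by omega) hA hfx
      obtain ⟨ρ, hρ, hρ'⟩ := hodge_nonneg hDt (by omega) hH hw4 hw5
      have hwgr : j ≠ 0 → w ∈ W.gr Y (2 * j - 2) := by
        intro hj0
        obtain ⟨z, hz, rfl⟩ := hw1 (j - 1) (by omega)
        have := W.cl_mem hz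
        rwa [show 2 * (j - 1) = 2 * j - 2 by omega] at this
      have hs : (t : W.K) ≠ 0 := by
        have := ht.ne'
        exact_mod_cast this
      have e0 := hlim (t : W.K) hs w hwgr hw2
      rw [← lop_pencil (W := W) (f := f) (D := D) (E := E), ← hr] at e0
      have e1 := e0 hw3
      -- the value
      have e2 : W.tr Y (W.map f x * (lop W Y (ops.pull f D + t ^ 2 • E) ^ (Y.dim - 2 * j))
          (W.map f x - lop W Y (ops.pull f D + t ^ 2 • E) w)) = (ρ : W.K) := by
        rw [← hρ]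
        have e3 : W.map f x = (W.map f x - lop W Y (ops.pull f D + t ^ 2 • E) w) +
            lop W Y (ops.pull f D + t ^ 2 • E) w := by abel
        conv_lhs => 
          enter [2, 1]
          rw [e3]
        rw [add_mul, map_add, tr_lop hDt, ← Module.End.mul_apply
          (lop W Y (ops.pull f D + t ^ 2 • E)), ← pow_succ', hw5, mul_zero, map_zero, add_zero]
      have e4 : W.tr X (x * W.push f ((lop W Y (ops.pull f D + t ^ 2 • E) ^ (Y.dim - 2 * j))
          (W.map f x - lop W Y (ops.pull f D + t ^ 2 • E) w))) = (ρ : W.K) := by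
        obtain ⟨z, hz, hzx⟩ := hx
        rw [← hzx, W.even_comm (W.cl_mem hz), W.tr_push, hzx,
          ← W.even_comm (a := (lop W Y (ops.pull f D + t ^ 2 • E) ^ (Y.dim - 2 * j))
          (W.map f x - lop W Y (ops.pull f D + t ^ 2 • E) w)) (p := j)
          (c := W.map f x) (by rw [← hzx]; exact W.map_mem f (W.cl_mem hz))]
        exact e2
      have e5 := congrArg (W.tr X ∘ₗ LinearMap.mulLeft W.K x) e1
      rw [map_smul, map_smul, hpN, LinearMap.comp_apply, LinearMap.mulLeft_apply, smul_eq_mul,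
        smul_eq_mul] at e5
      have e6 : q.eval (t : W.K) * (ρ : W.K) = (t : W.K) ^ (2 * r) * p.eval (t : W.K) := by
        rw [← e5, ← e4]
        rfl
      refine ⟨t, ht, htε, (-1) ^ j * ρ / t ^ (2 * r), ?_, ?_⟩
      · exact div_nonneg hρ' (pow_nonneg ht.le _)
      · rw [eval_mul, eval_C]
        push_cast
        have h7 : (t : W.K) ^ (2 * r) ≠ 0 := pow_ne_zero _ hs
        rw [← mul_div_assoc, div_eq_iff h7]
        linear_combination ((-1 : W.K) ^ j) * e6
  have h2 : (-1 : ℚ) ^ j * (((X.dim + r - 2 * j).choose r : ℚ) * d * b) =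
      ((X.dim + r - 2 * j).choose r : ℚ) * ((-1 : ℚ) ^ j * (d * b)) := by ring
  rw [h2] at key
  exact nonneg_of_mul_nonneg_right key hchoose

/-- **Descent of the conjectures A and of Hodge type along dominant morphisms.** -/
theorem descent (hpos : 0 < X.V.degCycle (divPow ops D X.dim X.V.fundCycle)) {i : ℕ}
    (hi : 2 * i ≤ X.dim)
    (h : ∀ ε : ℚ, 0 < ε → ∃ t : ℚ, 0 < t ∧ t < ε ∧
      HoldsUpTo W Y (ops.pull f D + t ^ 2 • E) i) : HoldsUpTo W X D i := by
  obtain ⟨r, hr⟩ : ∃ r, Y.dim = X.dim + r := ⟨Y.dim - X.dim, by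
    have := dim_le Q hD hE hHL hf h1; omega⟩
  obtain ⟨δ, M⟩ := exists_mapSetup Q hD hE hHL hf h1 hr
  -- the constant is rational
  have hone : (1 : W.H X) ∈ algClasses W X 0 := ⟨_, X.V.fundCycle_mem, W.cl_fund X⟩
  have honeY : (1 : W.H Y) ∈ algClasses W Y 0 := ⟨_, Y.V.fundCycle_mem, W.cl_fund Y⟩
  have htop : W.tr X ((lop W X D ^ X.dim) 1) =
      (X.V.degCycle (divPow ops D X.dim X.V.fundCycle) : W.K) := by
    rw [← W.tr_cl, cl_divPow, W.cl_fund]
    have := divPow_mem (ops := ops) hD X.dim X.V.fundCycle_mem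
    rwa [zero_add] at this
  set b0 := X.V.degCycle (divPow ops D X.dim X.V.fundCycle) with hb0
  have hb0' : (b0 : W.K) ≠ 0 := by exact_mod_cast hpos.ne'
  obtain ⟨a0, ha0⟩ : ∃ a0 : ℚ, W.tr Y ((lop W Y E ^ r) 1 *
      W.map f ((lop W X D ^ X.dim) 1)) = (a0 : W.K) :=
    alg_rat (i := r) (j := X.dim) (by omega) (alg_pow' hE honeY (by omega))
      (alg_map f (alg_pow' hD hone (by omega)))
  have hδ : δ * (b0 : W.K) = (a0 : W.K) := by
    have e1 := M.ψφ ((lop W X D ^ X.dim) 1)
    have e2 := congrArg (W.tr X) e1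
    rw [map_smul, smul_eq_mul, htop] at e2
    rw [← e2, ← ha0]
    have e3 := W.tr_push f ((eop W Y E ^ r) ((W.map f).toLinearMap ((lop W X D ^ X.dim) 1))) 1
    have e4 : W.map f (1 : W.H X) = 1 := map_one _
    rw [mul_one, e4, mul_one] at e3
    have e5 : (lop W Y E ^ r) (1 : W.H Y) = W.cl Y E ^ r := by
      have := eop_pow (W := W) (E := E) r (1 : W.H Y)
      rwa [mul_one] at this
    have e6 := eop_pow (W := W) (E := E) r
      ((W.map f).toLinearMap ((lop W X D ^ X.dim) (1 : W.H X)))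
    rw [e3, e5, e6]
    rfl
  obtain ⟨d, hd⟩ : ∃ d : ℚ, d = a0 / b0 := ⟨_, rfl⟩
  have hδd : δ = (d : W.K) := by
    rw [hd]
    push_cast
    rw [eq_div_iff hb0', hδ]
  have hd0 : 0 < d := by
    have h2 : 0 ≤ (-1 : ℚ) ^ 0 * (d * b0) := by
      refine nonneg Q hD hE hHL hf h1 hr M hδd (j := 0) (by omega) ?_ hone ?_ ?_
      · intro ε hε
        obtain ⟨t, ht, htε, ht'⟩ := h ε hε
        exact ⟨t, ht, htε, fun l hl => absurd hl (by omega), (ht' 0 (by omega)).2⟩
      · obtain ⟨z, hz, hzc⟩ := alg_pow (W := W) hD hone (X.dim - 2 * 0 + 1)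
        have h1 := W.cl_mem hz
        rw [W.gr_eq_bot X _ (by omega)] at h1
        rw [← hzc, (Submodule.mem_bot _).1 h1]
      · rw [one_mul, Nat.mul_zero, Nat.sub_zero]
        exact htop
    rw [pow_zero, one_mul] at h2
    rcases lt_or_eq_of_le (nonneg_of_mul_nonneg_left h2 hpos) with h3 | h3
    · exact h3
    · exfalso
      apply M.δ0
      rw [hδd, ← h3, Rat.cast_zero]
  -- numerical equivalence on `Y`
  obtain ⟨t₀, -, -, ht₀⟩ := h 1 one_pos
  have hDt₀ := pencil_mem (ops := ops) (f := f) hD hE t₀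
  have hnumY := num hDt₀ (by omega) ht₀
  -- numerical equivalence on `X`
  have hnumX : ∀ j ≤ i, ∀ c' ∈ algClasses W X (X.dim - j),
      (∀ c ∈ algClasses W X j, W.tr X (c * c') = 0) → c' = 0 := by
    intro j hj c' hc' h0
    have e1 : (eop W Y E ^ r) (W.map f c') = 0 := by
      apply (hnumY j hj).2
      · exact alg_pow' hE (alg_map f hc') (by omega)
      · intro y hy
        have e2 : W.tr Y (y * (eop W Y E ^ r) (W.map f c')) =
            W.tr X (W.push f ((lop W Y E ^ r) y) * c') := by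
          rw [W.tr_push, tr_lop_pow hE]
        rw [e2]
        exact h0 _ (alg_push f (alg_pow' hE hy rfl) (by omega))
    have e3 := M.ψφ c'
    rw [show (W.map f).toLinearMap c' = W.map f c' from rfl, e1, map_zero] at e3
    exact (smul_eq_zero.1 e3.symm).resolve_left M.δ0
  have hA : ∀ j ≤ i, LefschetzAIn W X D j := fun j hj =>
    A_of_num hD hHL (by omega) (hnumX j hj)
  refine fun j hj => ⟨hA j hj, ?_⟩
  -- the form is nonnegative
  have hnn : ∀ x ∈ algClasses W X j, (lop W X D ^ (X.dim - 2 * j + 1)) x = 0 → ∀ b : ℚ,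
      W.tr X (x * (lop W X D ^ (X.dim - 2 * j)) x) = (b : W.K) → 0 ≤ (-1 : ℚ) ^ j * b := by
    intro x hx hp b hb
    have h2 := nonneg Q hD hE hHL hf h1 hr M hδd (j := j) (by omega) (by
      intro ε hε
      obtain ⟨t, ht, htε, ht'⟩ := h ε hε
      exact ⟨t, ht, htε, fun l hl => (ht' l (by omega)).1, (ht' j hj).2⟩) hx hp hb
    have h3 : (-1 : ℚ) ^ j * (d * b) = d * ((-1 : ℚ) ^ j * b) := by ring
    rw [h3] at h2
    exact nonneg_of_mul_nonneg_right h2 hd0
  intro z hz hzp hz0
  rw [cl_divPow] at hzp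
  have hx : W.cl X z ∈ algClasses W X j := ⟨z, hz, rfl⟩
  have hb : W.tr X (W.cl X z * (lop W X D ^ (X.dim - 2 * j)) (W.cl X z)) =
      (X.V.degCycle (ops.mul z (divPow ops D (X.dim - 2 * j) z)) : W.K) := by
    rw [← cl_divPow]
    exact tr_mul_cl hz (divPow_mem hD _ hz) (by omega)
  refine lt_of_le_of_ne (hnn _ hx hzp _ hb) ?_
  intro h0
  have hb1 : X.V.degCycle (ops.mul z (divPow ops D (X.dim - 2 * j) z)) = 0 := by
    rcases mul_eq_zero.1 h0.symm with h2 | h2
    · exact absurd h2 (pow_ne_zero _ (by norm_num))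
    · exact h2
  rw [hb1, Rat.cast_zero] at hb
  -- the class is in the radical of the form on primitive classes
  have hsymm : ∀ a b : W.H X, a ∈ algClasses W X j →
      W.tr X (a * (lop W X D ^ (X.dim - 2 * j)) b) =
      W.tr X (b * (lop W X D ^ (X.dim - 2 * j)) a) := by
    rintro _ b ⟨u, hu, rfl⟩
    rw [← tr_lop_pow hD, ← cl_divPow, W.even_comm (W.cl_mem (divPow_mem hD _ hu))]
  have hrad : ∀ y ∈ algClasses W X j, (lop W X D ^ (X.dim - 2 * j + 1)) y = 0 →
      W.tr X (W.cl X z * (lop W X D ^ (X.dim - 2 * j)) y) = 0 := by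
    intro y hy hyp
    obtain ⟨u, hu⟩ := alg_rat (W := W) (i := j) (j := X.dim - j) (by omega) hx
      (alg_pow' hD hy (l := X.dim - 2 * j) (by omega))
    obtain ⟨v, hv⟩ := alg_rat (W := W) (i := j) (j := X.dim - j) (by omega) hy
      (alg_pow' hD hy (l := X.dim - 2 * j) (by omega))
    have h2 : ∀ t : ℚ, 0 ≤ (-1 : ℚ) ^ j * (2 * t * u + t ^ 2 * v) := by
      intro t
      apply hnn (W.cl X z + (t : W.K) • y) (alg_add hx (alg_smul t hy))
      · rw [map_add, map_smul, hzp, hyp, smul_zero, add_zero]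
      · rw [map_add, map_smul, add_mul, mul_add, mul_add, map_add, map_add, map_add, hb,
          mul_smul_comm, smul_mul_assoc, smul_mul_assoc, mul_smul_comm, map_smul, map_smul,
          map_smul, map_smul, hsymm y _ hy, hu, hv]
        simp only [smul_eq_mul]
        push_cast
        ring
    have h3 : u = 0 := by
      by_contra hu0
      rcases eq_or_ne v 0 with hv0 | hv0
      · have h4 := h2 (-((-1 : ℚ) ^ j * u))
        rw [hv0] at h4
        have h5 : (-1 : ℚ) ^ j * (2 * -((-1 : ℚ) ^ j * u) * u + (-((-1 : ℚ) ^ j * u)) ^ 2 * 0) =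
            -(2 * (((-1 : ℚ) ^ j) ^ 2 * u ^ 2)) := by ring
        rw [h5, ← pow_mul, mul_comm j, pow_mul, neg_one_sq, one_pow, one_mul] at h4
        have : 0 < u ^ 2 := by positivity
        linarith
      · have h4 := h2 (-(u / v))
        have h5 : (-1 : ℚ) ^ j * (2 * -(u / v) * u + (-(u / v)) ^ 2 * v) =
            -((-1 : ℚ) ^ j * v * (u / v) ^ 2) := by
          field_simp
          ring
        rw [h5] at h4
        have h6 : 0 ≤ (-1 : ℚ) ^ j * v := hnn y hy hyp v hv
        have h7 : (-1 : ℚ) ^ j * v ≠ 0 := mul_ne_zero (pow_ne_zero _ (by norm_num)) hv0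
        have h8 : 0 < (-1 : ℚ) ^ j * v := lt_of_le_of_ne h6 (Ne.symm h7)
        have h9 : 0 < (u / v) ^ 2 := by
          have : u / v ≠ 0 := div_ne_zero hu0 hv0
          positivity
        have := mul_pos h8 h9
        linarith
    rw [hu, h3, Rat.cast_zero]
  apply hz0
  -- orthogonal to everything
  have hL0 : (lop W X D ^ (X.dim - 2 * j)) (W.cl X z) = 0 := by
    apply hnumX j hj _ (alg_pow' hD hx (by omega))
    intro c hc
    rw [← hsymm (W.cl X z) c hx]
    obtain ⟨w, -, -, -, h4, h5⟩ := exists_prim' (W := W) hD (j := j) (by omega)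
      (fun l hl => hA l (by omega)) hc
    have e1 := hrad _ h4 h5
    have e2 : c = (c - lop W X D w) + lop W X D w := by abel
    rw [e2, map_add, mul_add, map_add, e1, zero_add, ← Module.End.mul_apply, ← pow_succ,
      ← tr_lop_pow hD, hzp, zero_mul, map_zero]
  exact (hHL (2 * j) (by omega)).1 _ (W.cl_mem hz) hL0

end Main

end Pool.Agent.R910.Dom
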